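import Mathlib

set_option autoImplicit false

namespace Pool.Agent.Results.MP_c1fe20_lc.Action

open Set Filter Topology MeasureTheory TopologicalSpace

universe u v

/-- Borel reducibility of relations -/
def BorelRed {X : Type u} {Y : Type v} [MeasurableSpace X] [MeasurableSpace Y]
    (R : X → X → Prop) (S : Y → Y → Prop) : Prop :=
  ∃ f : X → Y, Measurable f ∧ ∀ x x', R x x' ↔ S (f x) (f x')

abbrev A := ℕ → ℕ

def M : Type := List A

instance : Monoid M where
  mul := List.append
  one := []
  mul_assoc := List.append_assoc
  one_mul := List.nil_append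
  mul_one := List.append_nil

def emb (l : List A) : ℕ × (ℕ → A) := (l.length, fun i => l.getD i 0)

instance : TopologicalSpace M := induced emb inferInstance

theorem emb_closed : IsClosedEmbedding (X := M) emb := by
  refine ⟨⟨⟨rfl⟩, fun a b h => ?_⟩, ?_⟩
  · refine List.ext_getElem (congrArg Prod.fst h) fun i h1 h2 => ?_
    have := congrFun (congrArg Prod.snd h) i
    simp only [emb] at this
    rwa [List.getD_eq_getElem _ _ h1, List.getD_eq_getElem _ _ h2] at this
  · have : range (emb : M → _) = ⋂ i, ({p | i < p.1} ∪ {p | p.2 i = 0}) := by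
      ext p
      rw [mem_iInter]
      constructor
      · rintro ⟨l, rfl⟩ i
        exact (lt_or_ge i _).imp id fun h => List.getD_eq_default _ _ h
      · intro h
        refine ⟨List.ofFn fun i : Fin p.1 => p.2 i, Prod.ext List.length_ofFn (funext fun i => ?_)⟩
        simp only [emb]
        rcases lt_or_ge i p.1 with hi | hi
        · rw [List.getD_eq_getElem _ _ (by simpa using hi), List.getElem_ofFn]
        · rw [List.getD_eq_default _ _ (by simpa using hi)]
          exact ((h i).resolve_left (not_lt.2 hi)).symm
    exact this ▸ isClosed_iInter fun i =>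
      ((isClosed_discrete {n | i < n}).preimage continuous_fst).union
        (isClosed_eq ((continuous_apply i).comp continuous_snd) continuous_const)

instance : PolishSpace M := emb_closed.polishSpace

instance : ContinuousMul M := by
  refine ⟨emb_closed.isInducing.continuous_iff.2 ?_⟩
  let F : ℕ × (ℕ × (ℕ → A) × (ℕ → A)) → ℕ × (ℕ → A) := fun q =>
    (q.1 + q.2.1, fun i => if i < q.1 then q.2.2.1 i else q.2.2.2 (i - q.1))
  have hF : Continuous F := by
    refine continuous_prod_of_discrete_left.2 fun n => ?_
    refine (continuous_const.add continuous_fst).prodMk (continuous_pi fun i => ?_)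
    by_cases h : i < n <;> simp only [h, if_true, if_false] <;> fun_prop
  have c1 := emb_closed.continuous.comp (continuous_fst : Continuous (Prod.fst : M × M → M))
  have c2 := emb_closed.continuous.comp (continuous_snd : Continuous (Prod.snd : M × M → M))
  convert hF.comp (c1.fst.prodMk (c2.fst.prodMk (c1.snd.prodMk c2.snd)))
  funext p
  refine Prod.ext List.length_append (funext fun i => ?_)
  show List.getD (List.append p.1 p.2) i 0 = if i < List.length p.1 then List.getD p.1 i 0
    else List.getD p.2 (i - List.length p.1) 0
  split_ifs with h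
  · exact List.getD_append _ _ _ _ h
  · exact List.getD_append_right _ _ _ _ (not_lt.1 h)

def act {Y : Type} (s : A → Y → Y) : ℕ → (ℕ → A) → Y → Y
  | 0, _, y => y
  | n + 1, w, y => s (w 0) (act s n (fun i => w (i + 1)) y)

theorem act_cont {Y : Type} [TopologicalSpace Y] {s : A → Y → Y}
    (hs : Continuous fun p : A × Y => s p.1 p.2) :
    Continuous fun p : M × Y => List.foldr s p.2 p.1 := by
  have h1 : ∀ n, Continuous fun p : (ℕ → A) × Y => act s n p.1 p.2 := by
    intro n
    induction n with
    | zero => exact continuous_snd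
    | succ n ih =>
      have k : Continuous fun p : (ℕ → A) × Y => ((fun i => p.1 (i + 1), p.2) : (ℕ → A) × Y) := by
        fun_prop
      exact hs.comp (((continuous_apply 0).comp continuous_fst).prodMk (ih.comp k))
  have h2 : Continuous fun p : ℕ × (ℕ → A) × Y => act s p.1 p.2.1 p.2.2 :=
    continuous_prod_of_discrete_left.2 h1
  have c1 := emb_closed.continuous.comp (continuous_fst : Continuous (Prod.fst : M × Y → M))
  refine (h2.comp (c1.fst.prodMk (c1.snd.prodMk continuous_snd))).congr ?_
  rintro ⟨l, y⟩
  symm
  show List.foldr s y l = act s (List.length l) (fun i => List.getD l i 0) y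
  induction l with
  | nil => rfl
  | cons a l ih => exact congrArg (s a) ih

abbrev Y := ℕ → ℕ → Bool

open Classical in
noncomputable def L (u : Y) : ℕ → Bool := fun j => decide (∀ᶠ i in atTop, u i j = true)

theorem L_meas : Measurable L := by
  refine measurable_pi_lambda _ fun j => measurable_to_bool ?_
  have : (fun u => L u j) ⁻¹' {true} = ⋃ n, ⋂ i, ⋂ (_ : n ≤ i), {u : Y | u i j = true} := by
    ext u
    simp [L]
  rw [this]
  exact MeasurableSet.iUnion fun n => MeasurableSet.iInter fun i => MeasurableSet.iInter fun _ =>
    (show Measurable fun u : Y => u i j by fun_prop) (measurableSet_singleton true)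

def mv (u v y : Y) : Y := fun i => if ∀ a < i, ∀ b < i, y a b = u a b then v i else y i

theorem mv_cont : Continuous fun p : (Y × Y) × Y => mv p.1.1 p.1.2 p.2 := by
  refine continuous_pi fun i => Continuous.if ?_ (by fun_prop) (by fun_prop)
  have : IsClopen {p : (Y × Y) × Y | ∀ a < i, ∀ b < i, p.2 a b = p.1.1 a b} := by
    have e : {p : (Y × Y) × Y | ∀ a < i, ∀ b < i, p.2 a b = p.1.1 a b} =
        ⋂ a ∈ Iio i, ⋂ b ∈ Iio i, (fun p => (p.2 a b, p.1.1 a b)) ⁻¹' diagonal Bool := by
      ext p
      simp
    rw [e]
    exact (finite_Iio i).isClopen_biInter fun a _ => (finite_Iio i).isClopen_biInter fun b _ =>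
      (isClopen_discrete _).preimage (by fun_prop)
  rw [this.frontier_eq]
  exact fun _ h => h.elim

theorem mv_self (u v : Y) : mv u v u = v := funext fun _ => if_pos fun _ _ _ _ => rfl

theorem mv_ne {u y : Y} (v : Y) (h : y ≠ u) : L (mv u v y) = L y := by
  obtain ⟨a, ha⟩ := Function.ne_iff.1 h
  obtain ⟨b, hb⟩ := Function.ne_iff.1 ha
  funext j
  refine decide_eq_decide.2 (eventually_congr ?_)
  filter_upwards [eventually_gt_atTop a, eventually_gt_atTop b] with i h1 h2
  rw [mv, if_neg fun h => hb (h a h1 b h2)]

theorem result (X : Type u) [TopologicalSpace X] [PolishSpace X] [MeasurableSpace X]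
    [BorelSpace X] (R : X → X → Prop) (hr : ∀ x, R x x) (ht : ∀ x y z, R x y → R y z → R x z)
    (ha : AnalyticSet {p : X × X | R p.1 p.2}) :
    ∃ (M : Type) (_ : Monoid M) (_ : TopologicalSpace M) (_ : PolishSpace M) (_ : ContinuousMul M)
      (Y : Type) (_ : TopologicalSpace Y) (_ : PolishSpace Y) (_ : MeasurableSpace Y)
      (_ : BorelSpace Y) (a : M → Y → Y),
      (∀ y, a 1 y = y) ∧ (∀ g h y, a h (a g y) = a (h * g) y) ∧
      (Continuous fun p : M × Y => a p.1 p.2) ∧
      BorelRed R (fun y y' => ∃ g, a g y = y') ∧ BorelRed (fun y y' => ∃ g, a g y = y') R := by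
  rcases isEmpty_or_nonempty X with hX | hX
  · exact ⟨M, inferInstance, inferInstance, inferInstance, inferInstance, Empty, inferInstance, { },
      inferInstance, inferInstance, fun _ y => y, fun _ => rfl, fun _ _ _ => rfl, continuous_snd,
      ⟨fun x => hX.elim x, measurable_of_empty _, fun x => hX.elim x⟩,
      ⟨fun y => y.elim, measurable_of_empty _, fun y => y.elim⟩⟩
  have : PolishSpace Y := { }
  obtain ⟨e, e1, e2⟩ := MeasurableSpace.measurable_injection_nat_bool_of_countablySeparated X
  obtain ⟨r, r1, r2⟩ := (e1.measurableEmbedding e2).exists_measurable_extend measurable_id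
    fun _ => hX
  let c : Y → X := r ∘ L
  have hc : Measurable c := r1.comp L_meas
  have hs : ∀ x, c (fun _ => e x) = x := by
    intro x
    have : L (fun _ => e x) = e x := by
      funext j
      simp only [L, eventually_const]
      cases e x j <;> simp
    exact (congrArg r this).trans (congrFun r2 x)
  have han : AnalyticSet {p : Y × Y | R (c p.1) (c p.2)} := by
    obtain ⟨t, t1, t2, t3⟩ := (hc.prodMap hc).exists_continuous
    have := @AnalyticSet.image_of_continuous _ t _ instTopologicalSpaceProd _
      (@AnalyticSet.preimage _ _ t _ t3 _ _ ha _ t2) id (continuous_id_of_le t1)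
    rwa [image_id] at this
  rw [AnalyticSet] at han
  obtain ⟨f, f1, f2⟩ := han.resolve_left (Nonempty.ne_empty ⟨(fun _ _ => true, fun _ _ => true),
    hr _⟩)
  let s : A → Y → Y := fun z y => mv (f z).1 (f z).2 y
  have key : ∀ y y' : Y, (∃ g : M, List.foldr s y g = y') ↔ R (c y) (c y') := by
    intro y y'
    constructor
    · rintro ⟨g, rfl⟩
      induction g with
      | nil => exact hr _
      | cons z l ih =>
        refine ht _ _ _ ih ?_
        show R _ (c (mv _ _ _))
        by_cases h : List.foldr s y l = (f z).1
        · rw [h, mv_self]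
          exact (f2.subset ⟨z, rfl⟩ :)
        · simp only [c, Function.comp, mv_ne _ h]
          exact hr _
    · intro h
      obtain ⟨z, hz⟩ := f2.superset (show (y, y') ∈ {p : Y × Y | R (c p.1) (c p.2)} from h)
      refine ⟨[z], ?_⟩
      show mv (f z).1 (f z).2 y = y'
      rw [hz]
      exact mv_self _ _
  refine ⟨M, inferInstance, inferInstance, inferInstance, inferInstance, Y, inferInstance, this,
    inferInstance, inferInstance, fun g y => List.foldr s y g, fun _ => rfl,
    fun g h y => List.foldr_append.symm,
    act_cont (mv_cont.comp ((f1.comp continuous_fst).prodMk continuous_snd)),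
    ⟨fun x _ => e x, measurable_pi_lambda _ fun _ => e1, fun x x' => ?_⟩, c, hc, key⟩
  refine Iff.trans ?_ (key _ _).symm
  rw [hs, hs]

end Pool.Agent.Results.MP_c1fe20_lc.Action
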